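import Pool.Agent.Q125.FNO.Exist

set_option autoImplicit false

namespace Pool.Agent.Results.MP_ae7024_an.SmallAlpha

open Q125.FNO MeasureTheory
open scoped ENNReal

/-- The upper bound `1/2` for the optimal sampling exponent is not sharp. First part: for every
admissible pair `(K, ρ)` such that the law of the mean `∫ u` under `ρ` has logarithmic
concentration, `β^*(K^α(K)) ≤ α` for every `α > 0`. Second part: in every dimension `d ≥ 1` there
is such a pair, so `β^*(K^α(K)) < 1/2` for all `0 < α < 1/2`. -/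
theorem result :
    (∀ (d : ℕ) (K : Set (U d)) (ρ : Measure (U d)), Admissible K ρ → LogConc ρ →
      ∀ α : ℝ, 0 < α → betaStar ρ (Kal α K) ≤ ENNReal.ofReal α) ∧
    (∀ d : ℕ, 1 ≤ d → ∃ (K : Set (U d)) (ρ : Measure (U d)), Admissible K ρ ∧ LogConc ρ ∧
      ∀ α : ℝ, 0 < α → betaStar ρ (Kal α K) ≤ ENNReal.ofReal α ∧
        (α < 1 / 2 → betaStar ρ (Kal α K) < 1 / 2)) := by
  have main : ∀ (d : ℕ) (K : Set (U d)) (ρ : Measure (U d)), Admissible K ρ → LogConc ρ →
      ∀ α : ℝ, 0 < α → betaStar ρ (Kal α K) ≤ ENNReal.ofReal α := by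
    rintro d K ρ ⟨h1, _, _, h4, h5, _⟩ hl α hα
    exact betaStar_le K h1 ρ h5 hl α hα
  refine ⟨main, ?_⟩
  intro d hd
  obtain ⟨h1, h2⟩ := exists_pair d hd
  refine ⟨KK d, rho d, h1, h2, ?_⟩
  intro α hα
  refine ⟨main d _ _ h1 h2 α hα, ?_⟩
  intro hlt
  refine (main d _ _ h1 h2 α hα).trans_lt ?_
  have : (1:ℝ≥0∞) / 2 = ENNReal.ofReal (1 / 2) := by
    rw [ENNReal.ofReal_div_of_pos (by norm_num)]
    simp
  rw [this]
  exact (ENNReal.ofReal_lt_ofReal_iff (by norm_num)).2 hlt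

end Pool.Agent.Results.MP_ae7024_an.SmallAlpha
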